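import Pool.Agent.TH450.FG.F

/-!
# One dominating place (helper450)
-/

set_option autoImplicit false
set_option maxHeartbeats 400000

namespace Pool.Agent.TH450.FI

open Pool.Agent.H951R3.PB Pool.Agent.TH450.PC Pool.Agent.TH450.FG Real Finset

universe u v w

/-- counting with one dominating place -/
theorem count_conc {V : Type*} [DecidableEq V] {d : ℕ} (hd : 2 ≤ d) {I : Type*} [Fintype I]
    [DecidableEq I] (m : I → ℝ) (hm : ∀ i, 0 < m i)
    (g : I → V → V → ℝ) {c : ℝ} (hc : 0 < c) (X : Finset V)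
    (loss : ∀ i, ∀ (k : ℕ) (x : Fin (d ^ k) → V), Function.Injective x → (∀ j, x j ∈ X) →
      -((d : ℝ) ^ k * (k * m i)) ≤ ∑ a, ∑ b ∈ Ioi a, g i (x a) (x b))
    {M : ℕ} (i₁ : I) (gain : ∃ cell : V → Fin M, ∀ x ∈ X, ∀ y ∈ X, x ≠ y → cell x = cell y →
      c * m i₁ ≤ g i₁ x y)
    (glob : ∀ x ∈ X, ∀ y ∈ X, x ≠ y → ∑ i, g i x y ≤ 0) (R : ℝ) (hR : ∑ i, m i ≤ R * m i₁) :
    (X.card : ℝ) ≤ M * d * (1 + 2 / c * R * Nat.log d X.card) := by
  obtain ⟨cell, hcell⟩ := gain
  have hm1 := hm i₁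
  have hR0 : 0 ≤ R := by
    have h1 : m i₁ ≤ ∑ i, m i :=
      Finset.single_le_sum (f := m) (fun i _ => (hm i).le) (Finset.mem_univ i₁)
    by_contra hneg
    push Not at hneg
    nlinarith
  rcases X.eq_empty_or_nonempty with rfl | hX
  · simp
    positivity
  obtain ⟨p, hp⟩ : ∃ p : Fin M, X.card ≤ M * (X.filter fun x => cell x = p).card := by
    by_contra hcon
    push Not at hcon
    have h1 : X.card = ∑ p : Fin M, (X.filter fun x => cell x = p).card :=
      Finset.card_eq_sum_card_fiberwise (fun x _ => Finset.mem_univ _)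
    obtain ⟨x₀, hx₀⟩ := hX
    have hne : (Finset.univ : Finset (Fin M)).Nonempty := ⟨cell x₀, Finset.mem_univ _⟩
    have h2 : ∑ p : Fin M, M * (X.filter fun x => cell x = p).card <
        ∑ _p : Fin M, X.card := Finset.sum_lt_sum_of_nonempty hne fun p _ => hcon p
    rw [← Finset.mul_sum, ← h1, Finset.sum_const, Finset.card_univ, Fintype.card_fin,
      smul_eq_mul] at h2
    exact absurd h2 (lt_irrefl _)
  set Y := X.filter fun x => cell x = p with hY
  have hYX : Y ⊆ X := Finset.filter_subset _ _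
  have hYpos : Y.card ≠ 0 := by
    intro h0
    rw [h0, mul_zero] at hp
    exact hX.card_pos.ne' (Nat.le_zero.1 hp)
  set k := Nat.log d Y.card with hk
  have hk1 : d ^ k ≤ Y.card := Nat.pow_log_le_self d hYpos
  have hk2 : Y.card < d ^ (k + 1) := Nat.lt_pow_succ_log_self (by omega) _
  obtain ⟨Z, hZY, hZ⟩ := Finset.exists_subset_card_eq hk1
  let e : Fin (d ^ k) ≃ Z := (Finset.equivFinOfCardEq hZ).symm
  let x : Fin (d ^ k) → V := fun j => (e j : V)
  have hxinj : Function.Injective x := fun a b h => e.injective (Subtype.ext h)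
  have hxY : ∀ j, x j ∈ Y := fun j => hZY (e j).2
  have hxX : ∀ j, x j ∈ X := fun j => hYX (hxY j)
  have hxp : ∀ j, cell (x j) = p := fun j => (Finset.mem_filter.1 (hxY j)).2
  have hxne : ∀ a b : Fin (d ^ k), b ∈ Ioi a → x a ≠ x b := by
    intro a b hab h
    exact (Finset.mem_Ioi.1 hab).ne (hxinj h)
  set N : ℝ := ((d ^ k : ℕ) : ℝ) with hN
  have hN1 : 1 ≤ N := by
    rw [hN]
    exact_mod_cast Nat.one_le_pow _ _ (by omega)
  have hN0 : 0 < N := by linarith
  have hNd : N = (d : ℝ) ^ k := by rw [hN]; push_cast; rfl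
  let s : I → ℝ := fun i => ∑ a, ∑ b ∈ Ioi a, g i (x a) (x b)
  have hk0 : (0 : ℝ) ≤ k := Nat.cast_nonneg _
  have hloss : ∀ i, -(N * (k * m i)) ≤ s i := by
    intro i
    have h1 := loss i k x hxinj hxX
    rw [← hNd] at h1
    exact h1
  have hgain : N * (N - 1) / 2 * (c * m i₁) ≤ s i₁ := by
    have h1 := Pool.Agent.H951R3.PB.sum_Ioi_const (d ^ k) (c * m i₁)
    rw [← hN] at h1
    rw [← h1]
    refine Finset.sum_le_sum fun a _ => Finset.sum_le_sum fun b hb => ?_
    exact hcell _ (hxX a) _ (hxX b) (hxne a b hb) ((hxp a).trans (hxp b).symm)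
  have hsum : ∑ i, s i ≤ 0 := by
    have h1 : ∑ i, s i = ∑ a, ∑ b ∈ Ioi a, ∑ i, g i (x a) (x b) := by
      simp only [s]
      rw [Finset.sum_comm]
      refine Finset.sum_congr rfl fun a _ => ?_
      rw [Finset.sum_comm]
    rw [h1]
    refine Finset.sum_nonpos fun a _ => Finset.sum_nonpos fun b hb => ?_
    exact glob _ (hxX a) _ (hxX b) (hxne a b hb)
  rw [← Finset.add_sum_erase _ _ (Finset.mem_univ i₁)] at hsum
  have hrest : -(N * k * (R * m i₁)) ≤ ∑ i ∈ Finset.univ.erase i₁, s i := by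
    have h1 : ∑ i ∈ Finset.univ.erase i₁, -(N * (k * m i)) ≤
        ∑ i ∈ Finset.univ.erase i₁, s i := Finset.sum_le_sum fun i _ => hloss i
    have h2 : ∑ i ∈ Finset.univ.erase i₁, -(N * (k * m i)) =
        -(N * k * ∑ i ∈ Finset.univ.erase i₁, m i) := by
      rw [Finset.sum_neg_distrib, Finset.mul_sum]
      congr 1
      refine Finset.sum_congr rfl fun i _ => ?_
      ring
    have h3 : ∑ i ∈ Finset.univ.erase i₁, m i ≤ R * m i₁ := by
      refine le_trans ?_ hR
      exact Finset.sum_le_sum_of_subset_of_nonneg (Finset.erase_subset _ _)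
        fun i _ _ => (hm i).le
    have h4 : N * k * ∑ i ∈ Finset.univ.erase i₁, m i ≤ N * k * (R * m i₁) :=
      mul_le_mul_of_nonneg_left h3 (by positivity)
    linarith
  have hfin : N ≤ 1 + 2 / c * R * k := by
    have h2 : (N * m i₁) * ((N - 1) / 2 * c) ≤ (N * m i₁) * (R * k) := by
      linarith
    have h3 : (N - 1) / 2 * c ≤ R * k :=
      le_of_mul_le_mul_left h2 (by positivity)
    have h4 : N - 1 ≤ 2 / c * (R * k) := by
      rw [div_mul_eq_mul_div, le_div_iff₀ hc]
      linarith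
    linarith
  have hkX : k ≤ Nat.log d X.card := Nat.log_mono_right (Finset.card_le_card hYX)
  have hkX' : (k : ℝ) ≤ Nat.log d X.card := by exact_mod_cast hkX
  have hYle : (Y.card : ℝ) ≤ d * N := by
    have h1 : Y.card ≤ d * d ^ k := by
      rw [pow_succ] at hk2
      linarith
    rw [hN]
    exact_mod_cast h1
  have hp' : (X.card : ℝ) ≤ M * Y.card := by exact_mod_cast hp
  calc (X.card : ℝ) ≤ M * Y.card := hp'
    _ ≤ M * (d * N) := by gcongr
    _ ≤ M * (d * (1 + 2 / c * R * Nat.log d X.card)) := by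
        have h5 : N ≤ 1 + 2 / c * R * Nat.log d X.card := by
          refine hfin.trans ?_
          gcongr
        gcongr
    _ = _ := by ring

/-- **The bound with one dominating place.** -/
theorem core_conc (d : ℕ) (hd : 2 ≤ d) : ∃ C : ℝ, 0 < C ∧ ∀ (k : Type v) (K : Type u) [Field k]
    [Field K] [Algebra k K] (Q : PF.{u, v, w} k K)
    (f : Fin 2 → MvPolynomial (Fin 2) K), (∀ i, (f i).IsHomogeneous d) → rs f d ≠ 0 →
    (¬ ∃ (A : Matrix (Fin 2) (Fin 2) (AlgebraicClosure K))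
      (g : Fin 2 → MvPolynomial (Fin 2) (algebraicClosure k K))
      (c : AlgebraicClosure K), A.det ≠ 0 ∧ (∀ i, (g i).IsHomogeneous d) ∧ c ≠ 0 ∧
      ∀ v : Fin 2 → AlgebraicClosure K, ev (fL K f) (A.mulVec v) =
        c • A.mulVec (ev (fun i => (g i).map
          (algebraMap (algebraicClosure k K) (AlgebraicClosure K))) v)) →
    ∀ (w : Q.Pl → AbsoluteValue (AlgebraicClosure K) ℝ), (∀ v, Ext (Q.V v) (w v)) →
    ∀ (v₀ : Q.Pl) (R : ℝ), 1 ≤ R →
      (∀ T : Finset Q.Pl, ∑ v ∈ T, Q.wt v * max 0 (msz d f (w v)) ≤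
        R * (Q.wt v₀ * max 0 (msz d f (w v₀)))) →
    ∀ X : Finset (Fin 2 → K), (∀ x ∈ X, x ≠ 0 ∧ Pre f x) →
      (∀ x ∈ X, ∀ y ∈ X, x ≠ y → wd x y ≠ 0) →
      (X.card : ℝ) ≤ C * R * log (1 + R) := by
  obtain ⟨M, c, hc, Hgain⟩ := gainNA.{u} d hd
  set C₀ : ℝ := M * d + 2 / c + 1 with hC₀
  have hC₀pos : 0 < C₀ := by positivity
  obtain ⟨C', hC', Hsolve⟩ := solve_bound hC₀pos 1 le_rfl
  have hl2 : 0 < log (2 : ℝ) := log_pos (by norm_num)
  refine ⟨C' + (2 * d + 2) / log 2, by positivity, ?_⟩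
  intro k K _ _ _ Q f hf h0 hiso w hw v₀ R hR1 hR X hX hXX
  classical
  have hconst : ∀ x : K, x ≠ 0 → (∀ v, Q.V v x = 1) →
      ∃ c : algebraicClosure k K, algebraMap (algebraicClosure k K) K c = x :=
    fun x hx h => ⟨⟨x, mem_algebraicClosure_iff.2 (Q.const x hx h)⟩, rfl⟩
  have hna : ∀ v, IsNonarchimedean (w v) := fun v => ext_na (Q.na v) (hw v)
  have hlog2 : log 2 ≤ log (1 + R) := log_le_log (by norm_num) (by linarith)
  have hwt : ∀ v, (0 : ℝ) < Q.wt v := Q.wt_pos
  have hpos : ∀ v, msz d f (w v) ≤ 0 → ∀ x y, Pre f x → Pre f y → wd x y ≠ 0 →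
      0 ≤ G d f (w v) x y := by
    intro v hm x y hx hy hxy
    have hxy' : wd (vL K x) (vL K y) ≠ 0 := by
      rw [F4_wd]
      simpa using hxy
    exact gg_nonneg d hd _ (w v) (hna v) _ _ (F4_fib (by omega : 1 ≤ d) hf h0 (w v)) hm hxy'
  by_cases hbad : 0 < msz d f (w v₀)
  · have hSxy : ∀ x y : Fin 2 → K, ∃ S : Finset Q.Pl, Pre f x → Pre f y → wd x y ≠ 0 →
        ∀ S', S ⊆ S' → ∑ v ∈ S', Q.wt v * G d f (w v) x y = 0 := by
      intro x y
      by_cases h : Pre f x ∧ Pre f y ∧ wd x y ≠ 0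
      · obtain ⟨S, -, hS⟩ := G_sum Q w hw hd hf h0 h.1 h.2.1 h.2.2
        exact ⟨S, fun _ _ _ => hS⟩
      · exact ⟨∅, fun h1 h2 h3 => absurd ⟨h1, h2, h3⟩ h⟩
    choose Sf hSf using hSxy
    set S : Finset Q.Pl := insert v₀ (X.biUnion fun x => X.biUnion fun y => Sf x y) with hS
    have hSsum : ∀ x ∈ X, ∀ y ∈ X, x ≠ y → ∑ v ∈ S, Q.wt v * G d f (w v) x y = 0 := by
      intro x hx y hy hxy
      refine hSf x y (hX x hx).2 (hX y hy).2 (hXX x hx y hy hxy) S ?_
      intro v hv
      rw [hS, Finset.mem_insert, Finset.mem_biUnion]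
      exact Or.inr ⟨x, hx, Finset.mem_biUnion.2 ⟨y, hy, hv⟩⟩
    set B := S.filter (fun v => 0 < msz d f (w v)) with hB
    have hBpos : ∀ v ∈ B, 0 < msz d f (w v) := fun v hv => (Finset.mem_filter.1 hv).2
    have hv₀B : v₀ ∈ B := Finset.mem_filter.2 ⟨Finset.mem_insert_self _ _, hbad⟩
    have hglob : ∀ x ∈ X, ∀ y ∈ X, x ≠ y →
        ∑ t : {v // v ∈ B}, Q.wt t.1 * G d f (w t.1) x y ≤ 0 := by
      intro x hx y hy hxy
      rw [Finset.sum_coe_sort B (fun v => Q.wt v * G d f (w v) x y), ← hSsum x hx y hy hxy, hB]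
      rw [← Finset.sum_filter_add_sum_filter_not S (fun v => 0 < msz d f (w v))]
      have h5 : 0 ≤ ∑ v ∈ S.filter (fun v => ¬ 0 < msz d f (w v)), Q.wt v * G d f (w v) x y := by
        refine Finset.sum_nonneg fun v hv => ?_
        exact mul_nonneg (hwt v).le (hpos v (not_lt.1 (Finset.mem_filter.1 hv).2) x y
          (hX x hx).2 (hX y hy).2 (hXX x hx y hy hxy))
      linarith
    have hsize : ∑ t : {v // v ∈ B}, Q.wt t.1 * msz d f (w t.1) ≤
        R * (Q.wt v₀ * msz d f (w v₀)) := by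
      rw [Finset.sum_coe_sort B (fun v => Q.wt v * msz d f (w v))]
      have h1 := hR B
      rw [max_eq_right hbad.le] at h1
      refine le_trans (le_of_eq ?_) h1
      refine Finset.sum_congr rfl fun v hv => ?_
      rw [max_eq_right (hBpos v hv).le]
    have hcount := count_conc hd (fun t : {v // v ∈ B} => Q.wt t.1 * msz d f (w t.1))
      (fun t => mul_pos (hwt t.1) (hBpos _ t.2))
      (fun t x y => Q.wt t.1 * G d f (w t.1) x y) hc X
      (by
        intro t n x hxinj hxX
        have h1 := lossNA d hd _ (w t.1) (hna _) (fL K f) (fun i => (hf i).map _)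
          (F4_rs_ne h0) n (fun j => vL K (x j)) (fun j => F4_vL_ne (hX _ (hxX j)).1) (by
            intro i j hij
            rw [F4_wd]
            simpa using hXX _ (hxX i) _ (hxX j) (fun h => hij (hxinj h)))
        have h2 := mul_le_mul_of_nonneg_left h1 (hwt t.1).le
        rw [Finset.mul_sum] at h2
        simp_rw [Finset.mul_sum] at h2
        refine le_trans (le_of_eq ?_) h2
        unfold msz
        ring)
      (M := M) ⟨v₀, hv₀B⟩ (by
        obtain ⟨cell, hcell⟩ := Hgain _ (w v₀) (hna _) _ _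
          (F4_fib (by omega : 1 ≤ d) hf h0 (w v₀)) hbad
        refine ⟨fun x => cell (vL K x), ?_⟩
        intro x hx y hy hxy hcxy
        have h1 := hcell (vL K x) (vL K y) (by
          rw [F4_wd]
          simpa using hXX x hx y hy hxy) hcxy
        have h2 := mul_le_mul_of_nonneg_left h1 (hwt v₀).le
        refine le_trans (le_of_eq ?_) h2
        unfold msz
        ring)
      hglob R hsize
    have h1 : (X.card : ℝ) ≤ C₀ * (1 + C₀ * R * Nat.log d X.card) := by
      refine hcount.trans ?_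
      have e1 : (M * d : ℝ) ≤ C₀ := by
        rw [hC₀]
        have : 0 < 2 / c := by positivity
        linarith
      have e2 : 2 / c ≤ C₀ := by
        rw [hC₀]
        have : (0 : ℝ) ≤ M * d := by positivity
        linarith
      gcongr
    have h2 := Hsolve d X.card R R hd hR1 (by linarith) (by linarith) h1
    refine h2.trans ?_
    have h4 : 0 ≤ log (1 + R) := hl2.le.trans hlog2
    have h5 : (0 : ℝ) ≤ (2 * d + 2) / log 2 := by positivity
    gcongr
    linarith
  · -- no place of positive size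
    have hall : ∀ v, msz d f (w v) ≤ 0 := by
      intro v
      by_contra hv
      push Not at hv
      have h1 := hR {v}
      rw [Finset.sum_singleton, max_eq_left (not_lt.1 hbad), mul_zero, mul_zero,
        max_eq_right hv.le] at h1
      have := mul_pos (hwt v) hv
      linarith
    have hG : ∀ x y : Fin 2 → K, Pre f x → Pre f y → wd x y ≠ 0 → ∀ v, G d f (w v) x y = 0 := by
      intro x y hx hy hxy v
      obtain ⟨S, hS1, hS2⟩ := G_sum Q w hw hd hf h0 hx hy hxy
      by_cases hv : v ∈ S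
      · have h1 := hS2 S subset_rfl
        have h2 := (Finset.sum_eq_zero_iff_of_nonneg (fun v' _ =>
          mul_nonneg (hwt v').le (hpos v' (hall v') x y hx hy hxy))).1 h1 v hv
        rcases mul_eq_zero.1 h2 with h3 | h3
        · exact absurd h3 (hwt v).ne'
        · exact h3
      · exact hS1 v hv
    have hlt : X.card < 2 * d + 2 := by
      by_contra hcon
      push Not at hcon
      exact hiso (isotrivial_of_zero (k := algebraicClosure k K) Q.V hconst w hw hd hf h0 hG X hX hXX hcon)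
    have h1 : (X.card : ℝ) ≤ 2 * d + 2 := by exact_mod_cast hlt.le
    have h5 : (0 : ℝ) ≤ (2 * d + 2) / log 2 := by positivity
    calc (X.card : ℝ) ≤ 2 * d + 2 := h1
      _ = (2 * d + 2) / log 2 * 1 * log 2 := by rw [mul_one, div_mul_cancel₀ _ hl2.ne']
      _ ≤ (2 * d + 2) / log 2 * R * log (1 + R) := by
          gcongr
      _ ≤ (C' + (2 * d + 2) / log 2) * R * log (1 + R) := by
          have h4 : 0 ≤ log (1 + R) := hl2.le.trans hlog2
          gcongr
          linarith

end Pool.Agent.TH450.FI
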