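import Pool.Agent.TH450.FI.A
import Pool.Agent.TH450.FG.H

/-!
# One dominating place, final form (helper450)
-/

set_option autoImplicit false

namespace Pool.Agent.TH450.FI

open Pool.Agent.H951R3.PB Pool.Agent.TH450.PC Pool.Agent.TH450.FG Real Finset

universe u v w

theorem main_conc (d : ℕ) (hd : 2 ≤ d) : ∃ C : ℝ, 0 < C ∧
    ∀ (k : Type v) (K : Type u) [Field k] [Field K] [Algebra k K] (Q : PF.{u, v, w} k K),
    ∀ f : Fin 2 → MvPolynomial (Fin 2) K, (∀ i, (f i).IsHomogeneous d) →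
      (∀ x : Fin 2 → AlgebraicClosure K, (∀ i, MvPolynomial.aeval x (f i) = 0) → x = 0) →
      ¬ Isotrivial k d f →
    ∀ (w : Q.Pl → AbsoluteValue (AlgebraicClosure K) ℝ), (∀ v, Ext (Q.V v) (w v)) →
    ∀ (v₀ : Q.Pl) (R : ℝ), 1 ≤ R →
      (∀ T : Finset Q.Pl, ∑ v ∈ T, Q.wt v * max 0 (msz d f (w v)) ≤
        R * (Q.wt v₀ * max 0 (msz d f (w v₀)))) →
    ∀ X : Finset (Fin 2 → K), (∀ x ∈ X, x ≠ 0) →
      (∀ x ∈ X, ∀ y ∈ X, ∀ c : K, x = c • y → x = y) →
      (∀ x ∈ X, ∃ m n : ℕ, m < n ∧ ∃ c : K, c ≠ 0 ∧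
        (fun v : Fin 2 → K => fun i => MvPolynomial.eval v (f i))^[n] x =
          c • (fun v : Fin 2 → K => fun i => MvPolynomial.eval v (f i))^[m] x) →
      (X.card : ℝ) ≤ C * R * log (1 + R) := by
  obtain ⟨C, hC, H⟩ := core_conc.{u, v, w} d hd
  refine ⟨C, hC, ?_⟩
  intro k K _ _ _ Q f hf hz hiso w hw v₀ R hR1 hR X hX0 hXc hXp
  have h0 : rs f d ≠ 0 := rs_ne_of_noZero (by omega) hf hz
  refine H k K Q f hf h0 ?_ w hw v₀ R hR1 hR X ?_ ?_
  · rintro ⟨A, g, c, hA, hg, hc, hconj⟩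
    apply hiso
    refine ⟨A, fun i => (g i).map (algebraMap (algebraicClosure k K) (AlgebraicClosure K)), hA,
      fun i => (hg i).map _, ?_, ?_⟩
    · intro i m
      rw [MvPolynomial.coeff_map]
      have h1 : IsAlgebraic k (((g i).coeff m : algebraicClosure k K) : K) :=
        mem_algebraicClosure_iff.1 ((g i).coeff m).2
      have h2 : algebraMap (algebraicClosure k K) (AlgebraicClosure K) ((g i).coeff m) =
          algebraMap K (AlgebraicClosure K) (((g i).coeff m : algebraicClosure k K) : K) := rfl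
      rw [h2]
      exact h1.algebraMap
    · intro x _
      refine ⟨c, hc, ?_⟩
      have h1 := hconj x
      have h2 : (fun i => MvPolynomial.aeval (A.mulVec x) (f i)) = ev (fL K f) (A.mulVec x) := by
        funext i
        simp only [ev, fL]
        rw [MvPolynomial.eval_map, MvPolynomial.aeval_def]
      rw [h2, h1]
      rfl
  · intro x hx
    exact ⟨hX0 x hx, hXp x hx⟩
  · intro x hx y hy hxy h
    obtain ⟨a, ha⟩ := B1_parallel (hX0 y hy) h
    exact hxy (hXc x hx y hy a ha)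

end Pool.Agent.TH450.FI
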